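import Pool.Agent.H43.DPC.Targets

/-! Row LIM: the separated part of the moment tends to the moment. -/

set_option autoImplicit false

open MeasureTheory SchwartzMap Filter Topology
open scoped ENNReal ContDiff

namespace Pool.Agent.H54.DPC

open Pool.Agent.H43.DPC

/-- the power count -/
theorem lim_pow (d R : ℕ) (a C : ℝ) (m : ℕ) :
    (C * ((m + 1 : ℝ)⁻¹) ^ ((d : ℝ) - a)) ^ 2 * (((2 * (R * (m + 1)) + 1) ^ d : ℕ) : ℝ) ≤
      C ^ 2 * (2 * (R : ℝ) + 1) ^ d * (m + 1 : ℝ) ^ (-((d : ℝ) - 2 * a)) := by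
  have hx0 : (0 : ℝ) < (m : ℝ) + 1 := by positivity
  have hx1 : (1 : ℝ) ≤ (m : ℝ) + 1 := by
    have : (0 : ℝ) ≤ (m : ℝ) := Nat.cast_nonneg m
    linarith
  have e1 : ((m + 1 : ℝ)⁻¹) ^ ((d : ℝ) - a) = (m + 1 : ℝ) ^ (-((d : ℝ) - a)) := by
    rw [Real.inv_rpow hx0.le, Real.rpow_neg hx0.le]
  have h2 : (((2 * (R * (m + 1)) + 1) ^ d : ℕ) : ℝ) ≤ (2 * (R : ℝ) + 1) ^ d * (m + 1 : ℝ) ^ d := by
    rw [← mul_pow]
    push_cast
    refine pow_le_pow_left₀ (by positivity) ?_ d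
    nlinarith
  have e3 : ((m + 1 : ℝ) ^ (-((d : ℝ) - a))) ^ 2 * (m + 1 : ℝ) ^ d =
      (m + 1 : ℝ) ^ (-((d : ℝ) - 2 * a)) := by
    rw [← Real.rpow_natCast ((m + 1 : ℝ) ^ (-((d : ℝ) - a))) 2, ← Real.rpow_mul hx0.le,
      ← Real.rpow_natCast (m + 1 : ℝ) d, ← Real.rpow_add hx0]
    congr 1
    push_cast
    ring
  calc (C * ((m + 1 : ℝ)⁻¹) ^ ((d : ℝ) - a)) ^ 2 * (((2 * (R * (m + 1)) + 1) ^ d : ℕ) : ℝ)
      ≤ (C * ((m + 1 : ℝ)⁻¹) ^ ((d : ℝ) - a)) ^ 2 * ((2 * (R : ℝ) + 1) ^ d * (m + 1 : ℝ) ^ d) :=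
        mul_le_mul_of_nonneg_left h2 (sq_nonneg _)
    _ = C ^ 2 * (2 * (R : ℝ) + 1) ^ d * (((m + 1 : ℝ) ^ (-((d : ℝ) - a))) ^ 2 * (m + 1 : ℝ) ^ d) := by
        rw [e1]; ring
    _ = _ := by rw [e3]

theorem LIM (hHOL : T_HOL) (hLAT : T_LAT) (hUNI : T_UNI) (hGRB : T_GRB) : T_LIM := by
  intro d μ _ hMAO hT a hS ha n hn R f hf
  obtain ⟨h1, h2, -⟩ := hHOL d μ hMAO
  obtain ⟨M, hM⟩ := h2 n
  choose C hC0 hC using fun i : Fin n => hUNI d μ hMAO hT a hS n hn (f i)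
  obtain ⟨Cs, hCs⟩ : ∃ Cs : ℝ, Cs = ∑ i, C i := ⟨_, rfl⟩
  have hCs0 : 0 ≤ Cs := by rw [hCs]; exact Finset.sum_nonneg fun i _ => hC0 i
  have hCle : ∀ i, C i ≤ Cs := fun i => by
    rw [hCs]; exact Finset.single_le_sum (f := C) (fun i _ => hC0 i) (Finset.mem_univ i)
  obtain ⟨A', hA'⟩ : ∃ A' : ℝ, A' = ∑ i, Nn μ n (f i) := ⟨_, rfl⟩
  have hN0 : ∀ w : S d, 0 ≤ Nn μ n w := fun w => ENNReal.toReal_nonneg
  have hA'le : ∀ i, Nn μ n (f i) ≤ A' := fun i => by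
    rw [hA']
    exact Finset.single_le_sum (f := fun i => Nn μ n (f i)) (fun i _ => hN0 _) (Finset.mem_univ i)
  -- the error
  obtain ⟨e, he⟩ : ∃ e : ℕ → ℝ, e = fun m : ℕ => (Cs * ((m + 1 : ℝ)⁻¹) ^ ((d : ℝ) - a)) ^ 2 *
    (((2 * (R * (m + 1)) + 1) ^ d : ℕ) : ℝ) := ⟨_, rfl⟩
  have hlim : Tendsto (fun m : ℕ => Cs ^ 2 * (2 * (R : ℝ) + 1) ^ d *
      (m + 1 : ℝ) ^ (-((d : ℝ) - 2 * a))) atTop (𝓝 0) := by
    have h3 : Tendsto (fun m : ℕ => (m + 1 : ℝ) ^ (-((d : ℝ) - 2 * a))) atTop (𝓝 0) := by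
      refine (tendsto_rpow_neg_atTop (by linarith : 0 < (d : ℝ) - 2 * a)).comp ?_
      exact tendsto_atTop_add_const_right _ _ tendsto_natCast_atTop_atTop
    have h4 := h3.const_mul (Cs ^ 2 * (2 * (R : ℝ) + 1) ^ d)
    rw [mul_zero] at h4
    exact h4
  have he0 : Tendsto e atTop (𝓝 0) := by
    refine squeeze_zero (fun m => ?_) (fun m => ?_) hlim
    · rw [he]; positivity
    · rw [he]; exact lim_pow d R a Cs m
  have hev : ∀ᶠ m in atTop, e m ≤ 1 :=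
    (he0.eventually (gt_mem_nhds zero_lt_one)).mono fun m hm => le_of_lt hm
  rw [tendsto_iff_norm_sub_tendsto_zero]
  have hb : Tendsto (fun m => 2 ^ (n ^ 2) * ((5 ^ d : ℕ) : ℝ) ^ n * (max 1 A') ^ n * e m)
      atTop (𝓝 0) := by
    have h4 := he0.const_mul (2 ^ (n ^ 2) * ((5 ^ d : ℕ) : ℝ) ^ n * (max 1 A') ^ n)
    rw [mul_zero] at h4
    exact h4
  refine squeeze_zero' (Eventually.of_forall fun m => norm_nonneg _) ?_ hb
  filter_upwards [hev] with m hm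
  have ht0 : (0 : ℝ) < (m + 1 : ℝ)⁻¹ := by positivity
  have ht1 : (m + 1 : ℝ)⁻¹ ≤ 1 := by
    refine inv_le_one_of_one_le₀ ?_
    have : (0 : ℝ) ≤ (m : ℝ) := Nat.cast_nonneg m
    linarith
  have hcard : ((box d (R * (m + 1))).card : ℝ) = (((2 * (R * (m + 1)) + 1) ^ d : ℕ) : ℝ) := by
    rw [hLAT.box_card]
  have hsum : ∀ i, ∑ k ∈ box d (R * (m + 1)), cut ((m + 1 : ℝ)⁻¹) k (f i) = f i :=
    fun i => hLAT.sum_cut d m R (f i) (hf i)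
  have hem : (Cs * ((m + 1 : ℝ)⁻¹) ^ ((d : ℝ) - a)) ^ 2 * ((box d (R * (m + 1))).card : ℝ) =
      e m := by rw [hcard, he]
  have hG := hGRB (Fin d → ℤ) n Near (hLAT.near_symm d) (box d (R * (m + 1))) (5 ^ d)
    (Nat.one_le_pow _ _ (by norm_num)) (fun k _ => hLAT.near_card d _ k) (S d) M (Nn μ n) hN0
    (fun w => by rw [hM]; exact h1 n hn w) (fun i k => cut ((m + 1 : ℝ)⁻¹) k (f i))
    (Cs * ((m + 1 : ℝ)⁻¹) ^ ((d : ℝ) - a)) A' (by positivity)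
    (fun i k _ => (hC i _ k ht0 ht1).trans
      (mul_le_mul_of_nonneg_right (hCle i) (Real.rpow_nonneg ht0.le _)))
    (fun i => by rw [hsum i]; exact hA'le i)
    (by rw [hem]; exact hm)
  rw [hem] at hG
  have hfun : (fun i => ∑ k ∈ box d (R * (m + 1)), cut ((m + 1 : ℝ)⁻¹) k (f i)) = f :=
    funext hsum
  rw [hfun, hM f] at hG
  rw [Real.norm_eq_abs, abs_sub_comm]
  refine le_trans (le_of_eq ?_) hG
  have hs : ∑ k ∈ sepBox d n (R * (m + 1)),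
      moment μ (fun i => cut ((m + 1 : ℝ)⁻¹) (k i) (f i)) =
      ∑ k ∈ (Fintype.piFinset (fun _ : Fin n => box d (R * (m + 1)))).filter
        (fun k => ∀ i j, i ≠ j → ¬ Near (k i) (k j)),
          M (fun i => cut ((m + 1 : ℝ)⁻¹) (k i) (f i)) := by
    refine Finset.sum_congr rfl fun k _ => ?_
    exact (hM _).symm
  rw [hs]

end Pool.Agent.H54.DPC
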